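import Mathlib
import Pool.Agent.Helper53.R4.Frame
import Pool.Agent.Helper5.R4.Sys

/-!
# Calculus of two-way conversations, and normal forms
-/

namespace Pool.Agent.Helper71.R4

open Pool.Agent.Helper53.R4 (TC)

section

variable {U Y U' Y' : Type}

/-- more bits -/
theorem tc_mono {a b a' b' : ℕ} {F : U → Y → ℝ} (h : TC a b F) (ha : a ≤ a') (hb : b ≤ b') :
    TC a' b' F := by
  induction h generalizing a' b' with
  | vote v t => exact .vote v t
  | alice p F _ ih =>
    obtain ⟨a'', rfl⟩ : ∃ a'', a' = a'' + 1 := ⟨a' - 1, by omega⟩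
    exact .alice p F fun i => ih i (by omega) hb
  | bob p F _ ih =>
    obtain ⟨b'', rfl⟩ : ∃ b'', b' = b'' + 1 := ⟨b' - 1, by omega⟩
    exact .bob p F fun i => ih i ha (by omega)

/-- adding votes -/
theorem tc_add_vote {a b : ℕ} {F : U → Y → ℝ} (v : U → ℝ) (t : Y → ℝ) (h : TC a b F) :
    TC a b (fun u y => v u + t y + F u y) := by
  induction h with
  | vote v' t' =>
    have e : (fun u y => v u + t y + (v' u + t' y)) = fun u y => (v u + v' u) + (t y + t' y) := by
      funext u y; ring
    rw [e]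
    exact .vote (fun u => v u + v' u) (fun y => t y + t' y)
  | alice p F _ ih => exact .alice p (fun i u y => v u + t y + F i u y) ih
  | bob p F _ ih => exact .bob p (fun i u y => v u + t y + F i u y) ih

/-- sums -/
theorem tc_add {a b a' b' : ℕ} {F G : U → Y → ℝ} (hF : TC a b F) (hG : TC a' b' G) :
    TC (a + a') (b + b') (fun u y => F u y + G u y) := by
  induction hF with
  | vote v t => exact tc_mono (tc_add_vote v t hG) (Nat.le_add_left _ _) (Nat.le_add_left _ _)
  | @alice a b p F _ ih =>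
    rw [show a + 1 + a' = a + a' + 1 by omega]
    exact .alice p (fun i u y => F i u y + G u y) ih
  | @bob a b p F _ ih =>
    rw [show b + 1 + b' = b + b' + 1 by omega]
    exact .bob p (fun i u y => F i u y + G u y) ih

theorem tc_neg {a b : ℕ} {F : U → Y → ℝ} (h : TC a b F) : TC a b (fun u y => -F u y) := by
  induction h with
  | vote v t =>
    have e : (fun (u : U) (y : Y) => -(v u + t y)) = fun u y => -v u + -t y := by
      funext u y; ring
    rw [e]
    exact .vote (fun u => -v u) (fun y => -t y)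
  | alice p F _ ih => exact .alice p (fun i u y => -F i u y) ih
  | bob p F _ ih => exact .bob p (fun i u y => -F i u y) ih

theorem tc_sub {a b a' b' : ℕ} {F G : U → Y → ℝ} (hF : TC a b F) (hG : TC a' b' G) :
    TC (a + a') (b + b') (fun u y => F u y - G u y) := by
  simpa only [sub_eq_add_neg] using tc_add hF (tc_neg hG)

theorem tc_comp {a b : ℕ} {F : U → Y → ℝ} (f : U' → U) (g : Y' → Y) (h : TC a b F) :
    TC a b (fun u y => F (f u) (g y)) := by
  induction h with
  | vote v t => exact .vote (fun u => v (f u)) (fun y => t (g y))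
  | alice p F _ ih => exact .alice (fun u => p (f u)) (fun i u y => F i (f u) (g y)) ih
  | bob p F _ ih => exact .bob (fun y => p (g y)) (fun i u y => F i (f u) (g y)) ih

theorem tc_left (a b : ℕ) (v : U → ℝ) : TC a b (fun u (_ : Y) => v u) := by
  simpa using TC.vote (a := a) (b := b) v (fun _ : Y => 0)

theorem tc_right (a b : ℕ) (t : Y → ℝ) : TC a b (fun (_ : U) y => t y) := by
  simpa using TC.vote (a := a) (b := b) (fun _ : U => 0) t

theorem tc_zero (a b : ℕ) : TC a b (fun (_ : U) (_ : Y) => (0 : ℝ)) := tc_left a b fun _ => 0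

/-- one-way conversations -/
theorem tc_digest (B : ℕ) (vt : U → Fin (2 ^ B) → ℝ) (ms : Y → Fin (2 ^ B)) :
    TC 0 B (fun u y => vt u (ms y)) := by
  induction B generalizing Y with
  | zero =>
    have e : (fun u (y : Y) => vt u (ms y)) = fun u _ => vt u ⟨0, by norm_num⟩ := by
      funext u y
      congr 1
      apply Fin.ext
      have := (ms y).isLt
      simp only [pow_zero] at this
      omega
    rw [e]
    exact tc_left 0 0 _
  | succ B ih =>
    have hb : ∀ (r : Fin (2 ^ B)) (i : Bool), 2 * (r : ℕ) + (if i then 1 else 0) < 2 ^ (B + 1) := by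
      intro r i
      have := r.isLt
      rw [pow_succ]
      split_ifs <;> omega
    let F : Bool → U → Y → ℝ := fun i u y =>
      vt u ⟨2 * (((ms y : ℕ) / 2) % 2 ^ B) + (if i then 1 else 0),
        hb ⟨((ms y : ℕ) / 2) % 2 ^ B, Nat.mod_lt _ (by positivity)⟩ i⟩
    have e : (fun u y => vt u (ms y)) = fun u y => F (decide ((ms y : ℕ) % 2 = 1)) u y := by
      funext u y
      simp only [F]
      congr 1
      apply Fin.ext
      have h1 : (ms y : ℕ) < 2 ^ B * 2 := by
        exact lt_of_lt_of_eq (ms y).isLt (pow_succ 2 B)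
      have h2 : (ms y : ℕ) / 2 < 2 ^ B := by omega
      simp only [Nat.mod_eq_of_lt h2, decide_eq_true_eq]
      split_ifs <;> omega
    rw [e]
    refine .bob (fun y => decide ((ms y : ℕ) % 2 = 1)) F fun i => ?_
    exact ih (fun u r => vt u ⟨2 * (r : ℕ) + (if i then 1 else 0), hb r i⟩)
      (fun y => ⟨((ms y : ℕ) / 2) % 2 ^ B, Nat.mod_lt _ (by positivity)⟩)

end

section

variable {J K : Type} {m N : ℕ}

/-- Normal form at one vertex: up to functions of two of the three parts the vote is computed by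
conversations between Alice (who knows `x` and `u`) and Bob (who knows `x` and `y`). -/
def NF (m N A B : ℕ) (V : (J → Fin m) → (J × K → Fin N) → (K → Fin (m + N)) → ℝ) : Prop :=
  ∃ (E₁ : (J → Fin m) → (J × K → Fin N) → ℝ) (E₂ : (J → Fin m) → (K → Fin (m + N)) → ℝ)
    (E₃ : (J × K → Fin N) → (K → Fin (m + N)) → ℝ)
    (C : (J → Fin m) → (J × K → Fin N) → (K → Fin (m + N)) → ℝ),
    (∀ x, TC A B (fun u y => C x y u)) ∧ ∀ x y u, V x y u = E₁ x y + E₂ x u + E₃ y u + C x y u

theorem nf_add {A B A' B' : ℕ}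
    {V V' : (J → Fin m) → (J × K → Fin N) → (K → Fin (m + N)) → ℝ}
    (h : NF m N A B V) (h' : NF m N A' B' V') :
    NF m N (A + A') (B + B') (fun x y u => V x y u + V' x y u) := by
  obtain ⟨E₁, E₂, E₃, C, hC, hV⟩ := h
  obtain ⟨E₁', E₂', E₃', C', hC', hV'⟩ := h'
  refine ⟨fun x y => E₁ x y + E₁' x y, fun x u => E₂ x u + E₂' x u, fun y u => E₃ y u + E₃' y u,
    fun x y u => C x y u + C' x y u, fun x => tc_add (hC x) (hC' x), fun x y u => ?_⟩
  have h1 := hV x y u
  have h2 := hV' x y u
  show V x y u + V' x y u = (E₁ x y + E₁' x y) + (E₂ x u + E₂' x u) + (E₃ y u + E₃' y u) +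
    (C x y u + C' x y u)
  rw [h1, h2]
  ring

theorem nf_zero : NF (J := J) (K := K) m N 0 0 (fun _ _ _ => (0 : ℝ)) :=
  ⟨fun _ _ => 0, fun _ _ => 0, fun _ _ => 0, fun _ _ _ => 0, fun _ => tc_zero 0 0,
    fun _ _ _ => by ring⟩

theorem nf_sum {ι : Type} (s : Finset ι) (A B : ι → ℕ)
    (V : ι → (J → Fin m) → (J × K → Fin N) → (K → Fin (m + N)) → ℝ)
    (h : ∀ i ∈ s, NF m N (A i) (B i) (V i)) :
    NF m N (∑ i ∈ s, A i) (∑ i ∈ s, B i) (fun x y u => ∑ i ∈ s, V i x y u) := by
  classical
  induction s using Finset.induction_on with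
  | empty => simpa using nf_zero
  | insert i t hi ih =>
    simp only [Finset.sum_insert hi]
    exact nf_add (h i (Finset.mem_insert_self _ _))
      (ih fun j hj => h j (Finset.mem_insert_of_mem hj))

theorem nf_mono {A B A' B' : ℕ}
    {V : (J → Fin m) → (J × K → Fin N) → (K → Fin (m + N)) → ℝ}
    (h : NF m N A B V) (ha : A ≤ A') (hb : B ≤ B') : NF m N A' B' V := by
  obtain ⟨E₁, E₂, E₃, C, hC, hV⟩ := h
  exact ⟨E₁, E₂, E₃, C, fun x => tc_mono (hC x) ha hb, hV⟩

end

end Pool.Agent.Helper71.R4
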