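import Mathlib
import Pool.Agent.Helper71.R4.TC
import Pool.Agent.Helper95.RV.Upper

/-!
# The instances at one vertex, and the voters on them
-/

namespace Pool.Agent.Helper71.R4

open Pool.Agent.Helper22.ETModel Pool.Agent.Helper8.VT
open Pool.Agent.Helper5.RV (Cls)
open Pool.Agent.Helper5.R4
open Pool.Agent.Helper53.R4 (TC)

variable {n m N : ℕ}

theorem wts1_symm (c : Fin n) (hc : (c : ℕ) % 3 = 0) (x : Cls n 1 → Fin m)
    (y : Cls n 1 × Cls n 2 → Fin N) (u : Cls n 2 → Fin (m + N)) (a b : Fin n) :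
    wts1 c x y u a b = wts1 c x y u b a := by
  have ha : a = c → (a : ℕ) % 3 = 0 := fun h => by rw [h]; exact hc
  have hb : b = c → (b : ℕ) % 3 = 0 := fun h => by rw [h]; exact hc
  unfold wts1
  by_cases h1 : a = c ∧ (b : ℕ) % 3 = 1
  · have k1 : ¬ (b = c ∧ (a : ℕ) % 3 = 1) := fun h => by have := hb h.1; omega
    rw [dif_pos h1, dif_neg k1, dif_pos h1]
  by_cases h2 : b = c ∧ (a : ℕ) % 3 = 1
  · rw [dif_neg h1, dif_pos h2, dif_pos h2]
  by_cases h3 : (a : ℕ) % 3 = 1 ∧ (b : ℕ) % 3 = 2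
  · rw [dif_neg h1, dif_neg h2, dif_pos h3, dif_neg h2, dif_neg h1, dif_neg (by omega),
      dif_pos ⟨h3.2, h3.1⟩]
  by_cases h4 : (a : ℕ) % 3 = 2 ∧ (b : ℕ) % 3 = 1
  · rw [dif_neg h1, dif_neg h2, dif_neg h3, dif_pos h4, dif_neg h2, dif_neg h1,
      dif_pos ⟨h4.2, h4.1⟩]
  by_cases h5 : a = c ∧ (b : ℕ) % 3 = 2
  · have k1 : ¬ (b = c ∧ (a : ℕ) % 3 = 2) := fun h => by have := hb h.1; omega
    rw [dif_neg h1, dif_neg h2, dif_neg h3, dif_neg h4, dif_pos h5, dif_neg h2, dif_neg h1,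
      dif_neg (by omega), dif_neg (by omega), dif_neg k1, dif_pos h5]
  by_cases h6 : b = c ∧ (a : ℕ) % 3 = 2
  · rw [dif_neg h1, dif_neg h2, dif_neg h3, dif_neg h4, dif_neg h5, dif_pos h6, dif_neg h2,
      dif_neg h1, dif_neg (by omega), dif_neg (by omega), dif_pos h6]
  · rw [dif_neg h1, dif_neg h2, dif_neg h3, dif_neg h4, dif_neg h5, dif_neg h6, dif_neg h2,
      dif_neg h1, dif_neg (by omega), dif_neg (by omega), dif_neg h6, dif_neg h5]
    by_cases h7 : ((a : ℕ) % 3 = 0 ∧ (b : ℕ) % 3 = 2) ∨ ((a : ℕ) % 3 = 2 ∧ (b : ℕ) % 3 = 0)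
    · rw [if_pos h7, if_pos (by omega)]
    · rw [if_neg h7, if_neg (by omega)]

theorem wts1_bound (c : Fin n) (x : Cls n 1 → Fin m) (y : Cls n 1 × Cls n 2 → Fin N)
    (u : Cls n 2 → Fin (m + N)) {B : ℕ} (hB : m + N ≤ B) (hB1 : 1 ≤ B) (a b : Fin n) :
    |wts1 c x y u a b| ≤ (B : ℤ) := by
  have f1 : ∀ z : Fin m, |((z : ℕ) : ℤ)| ≤ (B : ℤ) := by
    intro z
    have := z.isLt
    rw [abs_of_nonneg (by positivity)]
    exact_mod_cast (by omega : (z : ℕ) ≤ B)
  have f2 : ∀ z : Fin N, |((z : ℕ) : ℤ)| ≤ (B : ℤ) := by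
    intro z
    have := z.isLt
    rw [abs_of_nonneg (by positivity)]
    exact_mod_cast (by omega : (z : ℕ) ≤ B)
  have f3 : ∀ z : Fin (m + N), |-((z : ℕ) : ℤ)| ≤ (B : ℤ) := by
    intro z
    have := z.isLt
    rw [abs_neg, abs_of_nonneg (by positivity)]
    exact_mod_cast (by omega : (z : ℕ) ≤ B)
  unfold wts1
  split_ifs
  · exact f1 _
  · exact f1 _
  · exact f2 _
  · exact f2 _
  · exact f3 _
  · exact f3 _
  · rw [abs_one]
    exact_mod_cast hB1
  · rw [abs_zero]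
    positivity

theorem mk1_valid (c : Fin n) (hc : (c : ℕ) % 3 = 0) (hm : m + N ≤ n ^ 300)
    (x : Cls n 1 → Fin m) (y : Cls n 1 × Cls n 2 → Fin N) (u : Cls n 2 → Fin (m + N)) :
    (mk1 c x y u).Valid := by
  have hn : 1 ≤ n := by have := c.isLt; omega
  refine ⟨fun i j => ?_, fun i => ?_, fun i j => wts1_symm c hc x y u i j, fun i j => ?_⟩
  · simp only [mk1, decide_eq_decide]
    exact ne_comm
  · simp [mk1]
  · have h := wts1_bound c x y u hm (Nat.one_le_pow _ _ hn) i j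
    simp only [mk1]
    refine h.trans (le_of_eq ?_)
    push_cast
    rfl

theorem mk1_tripartite (c : Fin n) (x : Cls n 1 → Fin m) (y : Cls n 1 × Cls n 2 → Fin N)
    (u : Cls n 2 → Fin (m + N)) : Tripartite (mk1 c x y u) := by
  intro a b
  simp [mk1]

theorem mk1_yes (c : Fin n) (hc : (c : ℕ) % 3 = 0) (x : Cls n 1 → Fin m)
    (y : Cls n 1 × Cls n 2 → Fin N) (u : Cls n 2 → Fin (m + N)) :
    (mk1 c x y u).Yes ↔ YesR x y u := by
  rw [Pool.Agent.Helper95.RV.yes_iff_symm _ (fun i j => wts1_symm c hc x y u i j)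
    (mk1_tripartite c x y u)]
  have h12 : ∀ j k : Fin n, (hj : (j : ℕ) % 3 = 1) → (hk : (k : ℕ) % 3 = 2) →
      wts1 c x y u j k = ((y (⟨j, hj⟩, ⟨k, hk⟩) : ℕ) : ℤ) := by
    intro j k hj hk
    unfold wts1
    rw [dif_neg, dif_neg, dif_pos ⟨hj, hk⟩]
    · rintro ⟨h, _⟩; rw [h] at hk; omega
    · rintro ⟨h, _⟩; rw [h] at hj; omega
  have h01 : ∀ j : Fin n, (hj : (j : ℕ) % 3 = 1) → wts1 c x y u c j = ((x ⟨j, hj⟩ : ℕ) : ℤ) := by
    intro j hj
    unfold wts1
    rw [dif_pos ⟨rfl, hj⟩]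
  have h02 : ∀ k : Fin n, (hk : (k : ℕ) % 3 = 2) → wts1 c x y u c k = -((u ⟨k, hk⟩ : ℕ) : ℤ) := by
    intro k hk
    unfold wts1
    rw [dif_neg (by omega), dif_neg (by omega), dif_neg (by omega), dif_neg (by omega),
      dif_pos ⟨rfl, hk⟩]
  unfold YesR
  constructor
  · rintro ⟨c', j, k, hc', hj, hk, e⟩
    simp only [mk1] at e
    rw [h12 j k hj hk] at e
    by_cases h : c' = c
    · subst h
      rw [h01 j hj, h02 k hk] at e
      refine ⟨⟨j, hj⟩, ⟨k, hk⟩, ?_⟩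
      apply Fin.ext
      simp only [pz]
      omega
    · exfalso
      have e1 : wts1 c x y u c' j = 0 := by
        unfold wts1
        rw [dif_neg (fun h' => h h'.1), dif_neg (fun h' => by rw [h'.1] at hj; omega),
          dif_neg (by omega), dif_neg (by omega), dif_neg (fun h' => h h'.1),
          dif_neg (fun h' => by rw [h'.1] at hj; omega), if_neg (by omega)]
      have e2 : wts1 c x y u c' k = 1 := by
        unfold wts1
        rw [dif_neg (fun h' => h h'.1), dif_neg (fun h' => by rw [h'.1] at hk; omega),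
          dif_neg (by omega), dif_neg (by omega), dif_neg (fun h' => h h'.1),
          dif_neg (fun h' => by rw [h'.1] at hk; omega), if_pos (by omega)]
      rw [e1, e2] at e
      omega
  · rintro ⟨j, k, e⟩
    refine ⟨c, j, k, hc, j.2, k.2, ?_⟩
    simp only [mk1]
    rw [h12 j k j.2 k.2, h01 j j.2, h02 k k.2]
    have e' : (u k : ℕ) = (x j : ℕ) + (y (j, k) : ℕ) := congrArg Fin.val e
    show ((x j : ℕ) : ℤ) + ((y (j, k) : ℕ) : ℤ) + -((u k : ℕ) : ℤ) = 0
    omega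

/-- without the weights between `c` and the class `1` -/
theorem near1_eq (c : Fin n) (x x' : Cls n 1 → Fin m) (y : Cls n 1 × Cls n 2 → Fin N)
    (u : Cls n 2 → Fin (m + N)) :
    nearView c 1 (wts1 c x y u) = nearView c 1 (wts1 c x' y u) := by
  funext a b
  unfold nearView
  by_cases h : Near c 1 a b
  · rw [if_pos h, if_pos h]
  · rw [if_neg h, if_neg h]
    obtain ⟨h1, h2⟩ := not_or.1 h
    unfold wts1
    rw [dif_neg h1, dif_neg h2, dif_neg h1, dif_neg h2]

/-- without the weights between `c` and the class `2` -/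
theorem near2_eq (c : Fin n) (x : Cls n 1 → Fin m) (y : Cls n 1 × Cls n 2 → Fin N)
    (u u' : Cls n 2 → Fin (m + N)) :
    nearView c 2 (wts1 c x y u) = nearView c 2 (wts1 c x y u') := by
  funext a b
  unfold nearView
  by_cases h : Near c 2 a b
  · rw [if_pos h, if_pos h]
  · rw [if_neg h, if_neg h]
    obtain ⟨h1, h2⟩ := not_or.1 h
    unfold wts1
    simp only [dif_neg h1, dif_neg h2]

/-- without the side between the classes `1` and `2` -/
theorem alice_eq (c : Fin n) (x : Cls n 1 → Fin m) (y y' : Cls n 1 × Cls n 2 → Fin N)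
    (u : Cls n 2 → Fin (m + N)) :
    aliceView (wts1 c x y u) = aliceView (wts1 c x y' u) := by
  funext a b
  unfold aliceView
  by_cases h : Far a b
  · rw [if_pos h, if_pos h]
  · rw [if_neg h, if_neg h]
    obtain ⟨h1, h2⟩ := not_or.1 h
    unfold wts1
    simp only [dif_neg h1, dif_neg h2]

/-- Free voters have normal forms without conversation. -/
theorem nf_free (c : Fin n) (hc : (c : ℕ) % 3 = 0) (hm0 : 0 < m) (hN0 : 0 < N)
    (hm : m + N ≤ n ^ 300) (H : Inst n → ℝ) (h : IsFree c H) :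
    NF m N 0 0 (fun x y u => H (mk1 (n := n) c x y u)) := by
  obtain ⟨F, hF⟩ := h
  let fl : Flags n := fun a b => decide ((a : ℕ) % 3 ≠ (b : ℕ) % 3)
  let x₀ : Cls n 1 → Fin m := fun _ => ⟨0, hm0⟩
  let y₀ : Cls n 1 × Cls n 2 → Fin N := fun _ => ⟨0, hN0⟩
  let u₀ : Cls n 2 → Fin (m + N) := fun _ => ⟨0, by omega⟩
  rcases hF with hF | hF | hF
  · refine ⟨fun _ _ => 0, fun _ _ => 0, fun y u => F fl (nearView c 1 (wts1 c x₀ y u)),
      fun _ _ _ => 0, fun _ => tc_zero 0 0, fun x y u => ?_⟩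
    have h1 : H (mk1 c x y u) = F fl (nearView c 1 (wts1 c x y u)) := hF _ (mk1_valid c hc hm x y u)
    beta_reduce
    rw [h1, near1_eq c x x₀ y u]
    ring
  · refine ⟨fun x y => F fl (nearView c 2 (wts1 c x y u₀)), fun _ _ => 0, fun _ _ => 0,
      fun _ _ _ => 0, fun _ => tc_zero 0 0, fun x y u => ?_⟩
    have h1 : H (mk1 c x y u) = F fl (nearView c 2 (wts1 c x y u)) := hF _ (mk1_valid c hc hm x y u)
    beta_reduce
    rw [h1, near2_eq c x y u u₀]
    ring
  · refine ⟨fun _ _ => 0, fun x u => F fl (aliceView (wts1 c x y₀ u)), fun _ _ => 0,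
      fun _ _ _ => 0, fun _ => tc_zero 0 0, fun x y u => ?_⟩
    have h1 : H (mk1 c x y u) = F fl (aliceView (wts1 c x y u)) := hF _ (mk1_valid c hc hm x y u)
    beta_reduce
    rw [h1, alice_eq c x y y₀ u]
    ring

theorem tc_conv {U Y : Type} {a b : ℕ} (P : Conv n a b) (f : U → Wts n) (g : Y → Wts n) :
    TC a b (fun u y => P.eval (f u) (g y)) := by
  induction P with
  | vote v v' => exact .vote (fun u => v (f u)) (fun y => v' (g y))
  | alice bit next ih =>
    exact .alice (fun u => bit (f u)) (fun i u y => (next i).eval (f u) (g y)) ih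
  | bob bit next ih =>
    exact .bob (fun y => bit (g y)) (fun i u y => (next i).eval (f u) (g y)) ih

/-- Conversations have normal forms. -/
theorem nf_conv (c : Fin n) (hc : (c : ℕ) % 3 = 0) (hm0 : 0 < m) (hN0 : 0 < N)
    (hm : m + N ≤ n ^ 300) {a b : ℕ} (H : Inst n → ℝ) (h : IsConv c a b H) :
    NF m N a b (fun x y u => H (mk1 (n := n) c x y u)) := by
  obtain ⟨P, hP⟩ := h
  let fl : Flags n := fun a b => decide ((a : ℕ) % 3 ≠ (b : ℕ) % 3)
  let y₀ : Cls n 1 × Cls n 2 → Fin N := fun _ => ⟨0, hN0⟩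
  let u₀ : Cls n 2 → Fin (m + N) := fun _ => ⟨0, by omega⟩
  refine ⟨fun _ _ => 0, fun _ _ => 0, fun _ _ => 0, fun x y u =>
    (P fl).eval (aliceView (wts1 c x y₀ u)) (nearView c 2 (wts1 c x y u₀)), fun x =>
    tc_conv (P fl) (fun u => aliceView (wts1 c x y₀ u)) (fun y => nearView c 2 (wts1 c x y u₀)),
    fun x y u => ?_⟩
  have h1 : H (mk1 c x y u) = (P fl).eval (aliceView (wts1 c x y u))
      (nearView c 2 (wts1 c x y u)) := hP _ (mk1_valid c hc hm x y u)
  beta_reduce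
  rw [h1, alice_eq c x y y₀ u, near2_eq c x y u u₀]
  ring

end Pool.Agent.Helper71.R4
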